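import Pool.Agent.W862.Kom.Action
import Pool.Agent.W862.Kom.AllP
import Pool.Agent.H422R3.Kom.Final

/-!
# The Komlós problem for vector systems with an elementary abelian `p`-group of symmetries
-/

namespace Pool.Agent.Results.MP_c81d26_co.PrimeExponentAbs

open MulAction

/-- `H` is an abelian group in which every element has order `1` or `p`; it acts freely on the set
`D` of coordinates and freely on the set `N` of indices of the vectors, and the family of vectors
`v : N → (D → ℝ)` is invariant under the two actions. -/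
def PrimeSymmetry (p : ℕ) (H D N : Type) [CommGroup H] [MulAction H D] [MulAction H N]
    (v : N → D → ℝ) : Prop :=
  (∀ a : H, a ^ p = 1) ∧ (∀ (a : H) (k : D), a • k = k → a = 1) ∧
    (∀ (a : H) (j : N), a • j = j → a = 1) ∧ ∀ (a : H) (j : N) (k : D), v (a • j) (a • k) = v j k

/-- number of orbits of `H` on the index set `N` -/
noncomputable def orbits (H N : Type) [Group H] [MulAction H N] : ℕ :=
  Nat.card (orbitRel.Quotient H N)

theorem result : ∀ (p : ℕ), p.Prime → ∀ (H D N : Type) [CommGroup H] [Finite H] [Fintype D]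
    [Fintype N] [MulAction H D] [MulAction H N] (v : N → D → ℝ), PrimeSymmetry p H D N v →
    (∀ j, ∑ k, v j k ^ 2 ≤ 1) →
    ∃ ε : N → ℝ, (∀ j, ε j = 1 ∨ ε j = -1) ∧
      ∀ k, |∑ j, ε j * v j k| ≤ 2 ^ 666 * Real.sqrt (orbits H N) := by
  intro p hp H D N _ _ _ _ _ _ v hs hcol
  have : Fact p.Prime := ⟨hp⟩
  have h1c : (1 : ℝ) ≤ 2 ^ 666 := one_le_pow₀ (by norm_num)
  by_cases hp2 : p = 2
  · obtain ⟨⟨ε, hε, hb⟩, _⟩ := Pool.Agent.H422R3.Kom.final (H := H) (R := D) (C := N)
      (fun a => by have := hs.1 a; rwa [hp2, pow_two] at this) hs.2.1 hs.2.2.1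
      (fun k j => v j k) (fun a k j => hs.2.2.2 a j k) hcol
    refine ⟨ε, hε, fun k => ?_⟩
    have h1 := hb k
    simp_rw [mul_comm (ε _)]
    refine h1.trans ?_
    have h2 : 0 ≤ Real.sqrt (orbits H N) := Real.sqrt_nonneg _
    calc Real.sqrt (orbits H N) = 1 * Real.sqrt (orbits H N) := (one_mul _).symm
      _ ≤ _ := mul_le_mul_of_nonneg_right h1c h2
  · exact Pool.Agent.W862.Kom.action_form (p := p) (2 ^ 666) (by positivity)
      (fun d R _ a ha => Pool.Agent.W862.Kom.oddP hp2 a ha) H D N v hs.1 hs.2.1 hs.2.2.1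
      hs.2.2.2 hcol

end Pool.Agent.Results.MP_c81d26_co.PrimeExponentAbs
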